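import Pool.Agent.Helper69.GC.Defs

set_option autoImplicit false

namespace Pool.Agent.Helper69.GC

open Polynomial

lemma fil_mul {F : Type} [Field F] (M N : Mat F) (i j : Fin 3) (s : ℕ)
    (h : ∀ l : Fin 3, ∀ p r : ℕ, p + r = s → (M i l).coeff p = 0 ∨ (N l j).coeff r = 0) :
    ((M * N) i j).coeff s = 0 := by
  rw [Matrix.mul_apply, Polynomial.finsetSum_coeff]
  refine Finset.sum_eq_zero fun l _ => ?_
  rw [Polynomial.coeff_mul]
  refine Finset.sum_eq_zero fun x hx => ?_
  rw [Finset.HasAntidiagonal.mem_antidiagonal] at hx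
  rcases h l x.1 x.2 hx with h1 | h1
  · rw [h1, zero_mul]
  · rw [h1, mul_zero]

theorem st_FIL : ST_FIL := by
  intro F _ k
  refine ⟨?_, ?_, ?_, ?_, ?_⟩
  · intro d e M N hM hN i j s hs
    refine fil_mul M N i j s fun l p r hpr => ?_
    by_cases h1 : 3 * p + (l : ℕ) < d + (i : ℕ)
    · exact Or.inl (hM i l p h1)
    · exact Or.inr (hN l j r (by omega))
  · intro M N hM hN i j s hs hc
    refine fil_mul M N i j s fun l p r hpr => ?_
    by_cases h1 : 3 * p + (l : ℕ) < 0 + (i : ℕ)
    · exact Or.inl (hM i l p h1)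
    · refine Or.inr (hN l j r (by omega) ?_)
      rintro ⟨h2, h3⟩
      apply hc
      have hl : (l : ℕ) < 3 := l.2
      have hi : (i : ℕ) < 3 := i.2
      have h4 : l = i := Fin.ext (by omega)
      subst h4
      exact ⟨by omega, h3⟩
  · intro M N hM hN i j s hs hc
    refine fil_mul M N i j s fun l p r hpr => ?_
    by_cases h1 : 3 * r + (j : ℕ) < 0 + (l : ℕ)
    · exact Or.inr (hN l j r h1)
    · refine Or.inl (hM i l p (by omega) ?_)
      rintro ⟨h2, h3⟩
      apply hc
      have hl : (l : ℕ) < 3 := l.2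
      have hj : (j : ℕ) < 3 := j.2
      have h4 : l = j := Fin.ext (by omega)
      subst h4
      exact ⟨by omega, h3⟩
  · intro i j s hs
    by_cases h : i = j
    · subst h
      omega
    · rw [Matrix.one_apply_ne h, Polynomial.coeff_zero]
  · intro d M hM i j s hs
    have h1 : (M j.rev i.rev).coeff s = 0 := by
      apply hM
      have hi : (i : ℕ) < 3 := i.2
      have hj : (j : ℕ) < 3 := j.2
      simp only [Fin.val_rev]
      omega
    have h2 : ((M j.rev i.rev).comp (-X)).coeff s = 0 := by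
      have h4 : (-X : F[X]) = C (-1 : F) * X := by simp
      rw [h4, Polynomial.comp_C_mul_X_coeff, h1, zero_mul]
    have h3 : ((-1 : F[X]) ^ ((i : ℕ) + (j : ℕ))) = C ((-1 : F) ^ ((i : ℕ) + (j : ℕ))) := by
      simp
    simp only [tw, Matrix.of_apply]
    rw [h3, Polynomial.coeff_C_mul, h2, mul_zero]

end Pool.Agent.Helper69.GC
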